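import Pool.Agent.TH561.PB.Main

/-!
# The Jones polynomials of closures of proper powers of braids

Diagrams (starting library `Pool.Agent.H891R2.Jones.Diagram`): `Diagram P` (oriented link diagrams),
`Diagram.fPoly` (the normalised bracket `(-A^{-3})^{w(D)} ⟨D⟩`), `Diagram.writhe`,
`Diagram.IsClosed` (the pieces of the diagram fit together to closed oriented curves), `Outer m` (the
part of an oriented diagram outside a box through which `m` strands run).

Braid words (starting library `Pool.Agent.W639.RB.Defs`): `Letter m = Bool × Fin (m - 1)` (the letters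
`σ_i^{±1}` of the braid group on `m` strands), `diagram O w` (the link diagram obtained by drawing the
word `w` in the box of `O`), `braidClosure m` (the outside of the box for the usual closure of braids).

For a word `w : Fin l → Letter m` the word `fun i : Fin (n * l) => w i.modNat` is the `n`-fold
repetition `w w ⋯ w`, i.e. the `n`-th power of the braid `w`.
-/

set_option autoImplicit false

namespace Pool.Agent.Results.MP_42db45_gt.BraidPowers

open Finset LaurentPolynomial Pool.Agent.H891R2.Jones Pool.Agent.W639.RB Pool.Agent.TH561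

theorem closure_closed (m : ℕ) : (braidClosure m).close.IsClosed := by
  classical
  rw [closed_iff]
  have h : ∀ x : Fin m, (univ.filter (fun j : Fin m => j = x)).card = 1 := by
    intro x
    rw [Finset.filter_eq' univ x, if_pos (Finset.mem_univ _), Finset.card_singleton]
  refine ⟨fun x => ?_, fun x => ?_⟩
  · simp only [Sst, braidClosure, id, List.map_nil, List.sum_nil]
    simp <;> convert h x
  · simp only [Sst, braidClosure, Outer.rev, id, List.map_nil, List.sum_nil]
    simp <;> convert h x

theorem expo_toL {m l : ℕ} (w : Fin l → Letter m) :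
    expo (toL w) = ∑ i, (if (w i).1 then (1 : ℤ) else -1) := by
  unfold expo toL
  rw [List.map_ofFn, List.sum_ofFn]
  rfl

/-- Let `m ≥ 2`, let `β` be any braid on `m` strands (given by any word `w` of any length `l` in the
letters `σ_i^{±1}`) and let `n` be a number that does not divide `lcm(1, 2, …, ⌊m/2⌋)`, i.e. `n` is
divisible by a prime power larger than `m/2` (for given `m` this holds for all but finitely many `n`;
for `m = 2, 3` it holds for all `n ≠ 1`).  Let `D` be the diagram of the closure of `β^n`; its writhe is
`n` times the exponent sum of `β`.  Then the normalised bracket of `D` is not `1`; it contains a power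
of `A` with exponent at least `-2 w(D) + 2 (m - 1)` and one with exponent at most
`-2 w(D) - 2 (m - 1)`.  In the variable `t = A^{-4}` of the Jones polynomial `V` this says that
`min deg V ≤ (w(D) - (m - 1)) / 2` and `max deg V ≥ (w(D) + (m - 1)) / 2`; so `V` has span at least
`m - 1`. -/
theorem result (m : ℕ) (hm : 2 ≤ m) (n : ℕ) (hn : ¬ n ∣ (Finset.Icc 1 (m / 2)).lcm id)
    (l : ℕ) (w : Fin l → Letter m) :
    (diagram (braidClosure m) (fun i : Fin (n * l) => w i.modNat)).IsClosed ∧
    (diagram (braidClosure m) (fun i : Fin (n * l) => w i.modNat)).writhe =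
      n * ∑ i, (if (w i).1 then (1 : ℤ) else -1) ∧
    (∃ a : ℤ, -2 * (diagram (braidClosure m) (fun i : Fin (n * l) => w i.modNat)).writhe +
        2 * ((m : ℤ) - 1) ≤ a ∧
      (diagram (braidClosure m) (fun i : Fin (n * l) => w i.modNat)).fPoly.coeff a ≠ 0) ∧
    (∃ a : ℤ, a ≤ -2 * (diagram (braidClosure m) (fun i : Fin (n * l) => w i.modNat)).writhe -
        2 * ((m : ℤ) - 1) ∧
      (diagram (braidClosure m) (fun i : Fin (n * l) => w i.modNat)).fPoly.coeff a ≠ 0) ∧
    (diagram (braidClosure m) (fun i : Fin (n * l) => w i.modNat)).fPoly ≠ 1 := by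
  obtain ⟨p, k, hp, hq, hdvd⟩ := exists_prime_pow hn
  obtain ⟨hwr, ⟨a, ha, ha'⟩, ⟨b, hb, hb'⟩⟩ := power_span (m := m) (by omega) p hp k n hq hdvd w
  rw [← hwr] at ha hb
  have h1 := fPoly_coeff _ a ha'
  have h2 := fPoly_coeff _ b hb'
  set D := diagram (braidClosure m) (fun i : Fin (n * l) => w i.modNat) with hD
  refine ⟨draw_closed _ _ (toL_mem _) (fun _ => rfl) (closure_closed m), ?_,
    ⟨a - 3 * D.writhe, by linarith, h1⟩, ⟨b - 3 * D.writhe, by linarith, h2⟩, ?_⟩
  · rw [hwr, expo_toL]
  · intro h
    rw [h] at h1 h2
    have h3 : ∀ c : ℤ, (1 : ℤ[T;T⁻¹]).coeff c ≠ 0 → c = 0 := by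
      intro c hc
      rw [← T_zero, T_apply] at hc
      by_contra hne
      exact hc (if_neg (fun h => hne h.symm))
    have h4 := h3 _ h1
    have h5 := h3 _ h2
    omega

end Pool.Agent.Results.MP_42db45_gt.BraidPowers
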