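import Pool.Agent.TH561.PB.Twist

/-!
# The Jones polynomials of closures of powers of braids followed by full twists

Diagrams (starting library `Pool.Agent.H891R2.Jones.Diagram`): `Diagram P` (oriented link diagrams),
`Diagram.fPoly` (the normalised bracket `(-A^{-3})^{w(D)} ⟨D⟩`), `Diagram.writhe`,
`Diagram.IsClosed` (the pieces of the diagram fit together to closed oriented curves), `Outer m` (the
part of an oriented diagram outside the open part of a box through which `m` strands run),
`Outer.twisted a` (the diagram obtained by filling the open part of the box with `a` full twists `Δ²` on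
all `m` strands, `|a|` left-handed full twists for `a < 0`).

Braid words (starting library `Pool.Agent.W639.RB.Defs`): `Letter m = Bool × Fin (m - 1)` (the letters
`σ_i^{±1}` of the braid group on `m` strands), `draw O (toL w)` (the word `w` drawn in the box of `O`),
`braidClosure m` (the outside of the box for the usual closure of braids).

For a word `w : Fin l → Letter m` the word `fun i : Fin (n * l) => w i.modNat` is the `n`-fold
repetition `w w ⋯ w`, i.e. the `n`-th power of the braid `w`.
-/

set_option autoImplicit false

namespace Pool.Agent.Results.MP_42db45_gt.FreelyPeriodicBraids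

open Finset LaurentPolynomial Pool.Agent.H891R2.Jones Pool.Agent.W639.RB Pool.Agent.TH561

theorem closure_closed (m : ℕ) : (braidClosure m).close.IsClosed := by
  classical
  rw [closed_iff]
  have h : ∀ x : Fin m, (univ.filter (fun j : Fin m => j = x)).card = 1 := by
    intro x
    rw [Finset.filter_eq' univ x, if_pos (Finset.mem_univ _), Finset.card_singleton]
  refine ⟨fun x => ?_, fun x => ?_⟩
  · simp only [Sst, braidClosure, id, List.map_nil, List.sum_nil]
    simp <;> convert h x
  · simp only [Sst, braidClosure, Outer.rev, id, List.map_nil, List.sum_nil]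
    simp <;> convert h x

theorem expo_toL {m l : ℕ} (w : Fin l → Letter m) :
    expo (toL w) = ∑ i, (if (w i).1 then (1 : ℤ) else -1) := by
  unfold expo toL
  rw [List.map_ofFn, List.sum_ofFn]
  rfl

/-- Let `m ≥ 2`, let `a` be an integer other than `0`, let `β` be any braid on `m` strands (given by any
word `w` of any length `l` in the letters `σ_i^{±1}`) and let `n` be a number that does not divide
`lcm(1, 2, …, N)`, `N = ⌊(3 |a| m² + 2) / 2⌋`, i.e. `n` is divisible by a prime power larger than `N`
(for given `m` and `a` this holds for all but finitely many `n`).  Let `D` be the diagram of the closure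
of the braid `β^n Δ^{2a}`; its writhe is `n` times the exponent sum of `β` plus `a m (m - 1)`.  Then the
normalised bracket of `D` is not `1`.  For `a > 0` it contains a power of `A` with exponent at least
`-2 w(D) + 2 (m - 1)` (that is, `min deg V ≤ (w(D) - (m - 1)) / 2` for the Jones polynomial `V(t)`,
`t = A^{-4}`), for `a < 0` one with exponent at most `-2 w(D) - 2 (m - 1)` (that is,
`max deg V ≥ (w(D) + (m - 1)) / 2`). -/
theorem result (m : ℕ) (hm : 2 ≤ m) (a : ℤ) (ha : a ≠ 0) (n : ℕ)
    (hn : ¬ n ∣ (Finset.Icc 1 ((3 * a.natAbs * m ^ 2 + 2) / 2)).lcm id)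
    (l : ℕ) (w : Fin l → Letter m) :
    ((draw (braidClosure m) (toL (fun i : Fin (n * l) => w i.modNat))).twisted a).IsClosed ∧
    ((draw (braidClosure m) (toL (fun i : Fin (n * l) => w i.modNat))).twisted a).writhe =
      n * (∑ i, (if (w i).1 then (1 : ℤ) else -1)) + a * (m * (m - 1)) ∧
    (0 < a → ∃ c : ℤ,
      -2 * ((draw (braidClosure m) (toL (fun i : Fin (n * l) => w i.modNat))).twisted a).writhe +
        2 * ((m : ℤ) - 1) ≤ c ∧
      ((draw (braidClosure m) (toL (fun i : Fin (n * l) => w i.modNat))).twisted a).fPoly.coeff c ≠ 0) ∧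
    (a < 0 → ∃ c : ℤ,
      c ≤ -2 * ((draw (braidClosure m) (toL (fun i : Fin (n * l) => w i.modNat))).twisted a).writhe -
        2 * ((m : ℤ) - 1) ∧
      ((draw (braidClosure m) (toL (fun i : Fin (n * l) => w i.modNat))).twisted a).fPoly.coeff c ≠ 0) ∧
    ((draw (braidClosure m) (toL (fun i : Fin (n * l) => w i.modNat))).twisted a).fPoly ≠ 1 := by
  obtain ⟨p, k, hp, hq, hdvd⟩ := exists_prime_pow hn
  have : Fact p.Prime := ⟨hp⟩
  obtain ⟨n', rfl⟩ := hdvd
  have hmem := toL_mem w
  have hmemW := toL_mem (fun i : Fin (p ^ k * n' * l) => w i.modNat)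
  have hB : ∀ x ∈ (List.replicate n' (toL w)).flatten, x.2 + 1 < m := by
    intro x hx
    rw [List.mem_flatten] at hx
    obtain ⟨L, hL, hx⟩ := hx
    rw [List.mem_replicate] at hL
    rw [hL.2] at hx
    exact hmem x hx
  have hE : expo (toL (fun i : Fin (p ^ k * n' * l) => w i.modNat)) =
      (p ^ k * n' : ℕ) * expo (toL w) := by
    rw [toL_pow, expo_replicate]
  obtain ⟨hup, howr⟩ := draw_up _ (braidClosure m) hmemW (fun _ => rfl)
  have hlink : (draw (braidClosure m) (toL (fun i : Fin (p ^ k * n' * l) => w i.modNat))).linking = m := by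
    unfold Outer.linking
    simp [hup]
  have hwr : ((draw (braidClosure m) (toL (fun i : Fin (p ^ k * n' * l) => w i.modNat))).twisted a).writhe =
      (p ^ k * n' : ℕ) * (∑ i, (if (w i).1 then (1 : ℤ) else -1)) + a * (m * (m - 1)) := by
    rw [twist_writhe, close_writhe, howr, hE, hlink, expo_toL]
    have : owr (braidClosure m) = 0 := rfl
    rw [this]
    ring
  obtain ⟨h1, h2, h3⟩ := twist_main (m := m) hm p k a ha (by omega)
    (List.replicate n' (toL w)).flatten hB
    (toL (fun i : Fin (p ^ k * n' * l) => w i.modNat)) hmemW (by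
      intro A N
      rw [toL_pow, MR_replicate, MR_replicate, ← pow_mul, mul_comm n']) (by
      rw [hE, expo_replicate]
      push_cast
      ring)
    ((draw (braidClosure m) (toL (fun i : Fin (p ^ k * n' * l) => w i.modNat))).twisted a).writhe (by
      rw [hwr, hE, expo_toL])
  refine ⟨?_, hwr, fun h => ?_, fun h => ?_, fun h => ?_⟩
  · exact twisted_closed _ (draw_closed _ _ hmemW (fun _ => rfl) (closure_closed m)) a
  · obtain ⟨c, hc1, hc2⟩ := h1 h
    exact ⟨_, by linarith, fPoly_coeff _ c hc2⟩
  · obtain ⟨c, hc1, hc2⟩ := h2 h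
    exact ⟨_, by linarith, fPoly_coeff _ c hc2⟩
  · unfold Diagram.fPoly at h
    generalize hv : ((draw (braidClosure m)
      (toL (fun i : Fin (p ^ k * n' * l) => w i.modNat))).twisted a).writhe = v at h h3
    have hT : (T (3 * v) * T (-3 * v) : ℤ[T;T⁻¹]) = 1 := by
      rw [← T_add, ← T_zero]
      congr 1
      ring
    by_cases hv2 : Even v
    · rw [if_pos hv2, one_mul] at h
      apply h3 1 (Or.inl rfl)
      calc _ = T (3 * v) * T (-3 * v) * ((draw (braidClosure m)
            (toL (fun i : Fin (p ^ k * n' * l) => w i.modNat))).twisted a).bracket := by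
            rw [hT, one_mul]
        _ = T (3 * v) * (T (-3 * v) * ((draw (braidClosure m)
            (toL (fun i : Fin (p ^ k * n' * l) => w i.modNat))).twisted a).bracket) := by ring
        _ = _ := by rw [h]; ring
    · rw [if_neg hv2] at h
      apply h3 (-1) (Or.inr rfl)
      calc _ = T (3 * v) * T (-3 * v) * ((draw (braidClosure m)
            (toL (fun i : Fin (p ^ k * n' * l) => w i.modNat))).twisted a).bracket := by
            rw [hT, one_mul]
        _ = -T (3 * v) * (-1 * T (-3 * v) * ((draw (braidClosure m)
            (toL (fun i : Fin (p ^ k * n' * l) => w i.modNat))).twisted a).bracket) := by ring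
        _ = _ := by rw [h]; ring

end Pool.Agent.Results.MP_42db45_gt.FreelyPeriodicBraids
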