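import Pool.Agent.TH561.FP.Main

/-!
# Jones polynomials of freely periodic knots and the linking number with the axis

`Pool.Agent.TH561.PK.Defs` contains the definitions:

* `Elem M`: an elementary tangle on `M` vertical strands: a crossing of one of the two kinds between
  the places `i` and `i + 1`, or a hook (the two lower points at the places `i`, `i + 1` are joined by a
  cap, the two upper points by a cup);
* `annular w dir`: the closure in the annulus of the tangle `w 0, w 1, …, w (L-1)` (one above the
  other); its marked points are the points `(t, j)` (level `t ∈ ℤ/L`, place `j`);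
* `Oriented w dir`: `dir` is an orientation of the curves of this diagram (`dir (t, j) = true`: upwards);
* `linking dir t`: number of the strands directed upwards minus number of the strands directed
  downwards at the level `t`, which is the linking number with the axis of the annulus;
* `IsKnot D`: all marked points are on one curve.

`pw n w` (in `Pool.Agent.TH561.PK.Knot`) is the word `w` repeated `n` times, and `freeWord n w a` (in
`Pool.Agent.TH561.FP.Defs`) is `pw n w` followed by `a` full twists on all `M` strands, that is by the
word `(σ_0 σ_1 ⋯ σ_{M-2})^M` repeated `|a|` times, with crossings of the kind given by the sign of `a`.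
So `annular (freeWord n w a) dir` is a knot which is invariant under a rotation of order `n` around the
axis of the annulus combined with a rotation along the axis; if `a` is prime to `n` this is a free
action of `ℤ/n` on the 3-sphere.  (By the classical description every knot which is invariant under a
free action of `ℤ/n` has a diagram of this form.  This fact is not used in the proof.)

`Diagram.IsClosed` and `Diagram.fPoly` (the normalised Kauffman bracket) are in
`Pool.Agent.H891R2.Jones.Diagram`.
-/

set_option autoImplicit false

namespace Pool.Agent.Results.MP_42db45_gt.FreelyPeriodicKnots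

open Pool.Agent.H891R2.Jones Pool.Agent.TH561.PK Pool.Agent.TH561.FP

/-- Let `D` be a knot diagram which is the closure in the annulus of `w ^ n` followed by `a` full
twists, and let `λ` be its linking number with the axis.  Let `p^k ≥ 4` be a power of a prime `p` which
divides `n`.  If `f_D` has exactly one coefficient which is not divisible by `p`, then `p^k` divides one
of `2(λ-1)`, `2(λ+1)`, `aλ-1`, `aλ+1`.  In particular, if `f_D = 1` and `p` is odd, then `λ ≡ ± 1` or
`aλ ≡ ± 1` modulo `p^k`. -/
theorem result (M l n : ℕ) (hl : 0 < l) (hn : 0 < n) (w : Fin l → Elem M) (a : ℤ)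
    (dir : Fin (n * l + a.natAbs * (M * (M - 1))) × Fin M → Bool)
    (ho : Oriented (freeWord n w a) dir) (hK : IsKnot (annular (freeWord n w a) dir)) :
    (annular (freeWord n w a) dir).IsClosed ∧
    (∀ t t', linking dir t = linking dir t') ∧
    (∀ p k : ℕ, p.Prime → 4 ≤ p ^ k → p ^ k ∣ n →
      (∃ x, ¬ (p : ℤ) ∣ (annular (freeWord n w a) dir).fPoly.coeff x ∧
        ∀ y, y ≠ x → (p : ℤ) ∣ (annular (freeWord n w a) dir).fPoly.coeff y) →
      ∀ t, (p ^ k : ℤ) ∣ 2 * (linking dir t - 1) ∨ (p ^ k : ℤ) ∣ 2 * (linking dir t + 1) ∨
        (p ^ k : ℤ) ∣ a * linking dir t - 1 ∨ (p ^ k : ℤ) ∣ a * linking dir t + 1) ∧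
    ((annular (freeWord n w a) dir).fPoly = 1 → ∀ p k : ℕ, p.Prime → p ≠ 2 → 4 ≤ p ^ k → p ^ k ∣ n →
      ∀ t, (p ^ k : ℤ) ∣ linking dir t - 1 ∨ (p ^ k : ℤ) ∣ linking dir t + 1 ∨
        (p ^ k : ℤ) ∣ a * linking dir t - 1 ∨ (p ^ k : ℤ) ∣ a * linking dir t + 1) := by
  have hM : 0 < M := by
    have := (w ⟨0, hl⟩).2.2
    omega
  refine ⟨annular_closed _ dir ho, linking_const _ dir ho, ?_, ?_⟩
  · rintro p k hp hq hpn ⟨x, hx, hx'⟩ t
    exact free_main_n p k n hp hq hpn hn hM w hl a dir ho hK x hx hx' t
  · intro hf p k hp hp2 hq hpn t
    obtain ⟨h2, h3⟩ := one_coeff p hp _ hf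
    have h4 := free_main_n p k n hp hq hpn hn hM w hl a dir ho hK 0 h2 h3 t
    have hcop : IsCoprime ((p : ℤ) ^ k) 2 := by
      apply IsCoprime.pow_left
      rw [Int.isCoprime_iff_gcd_eq_one]
      have : Nat.Coprime p 2 := (Nat.coprime_primes hp Nat.prime_two).2 hp2
      exact_mod_cast this
    rcases h4 with h4 | h4 | h4 | h4
    · left; exact hcop.dvd_of_dvd_mul_left h4
    · right; left; exact hcop.dvd_of_dvd_mul_left h4
    · right; right; left; exact h4
    · right; right; right; exact h4

end Pool.Agent.Results.MP_42db45_gt.FreelyPeriodicKnots
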