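import Pool.Agent.TH561.PK.Main

/-!
# Jones polynomials of periodic knots and the linking number with the axis

`Pool.Agent.TH561.PK.Defs` contains the definitions:

* `Elem M`: an elementary tangle on `M` vertical strands: a crossing of one of the two kinds between
  the places `i` and `i + 1`, or a hook (the two lower points at the places `i`, `i + 1` are joined by a
  cap, the two upper points by a cup);
* `annular w dir`: the closure in the annulus of the tangle `w 0, w 1, …, w (L-1)` (one above the
  other); its marked points are the points `(t, j)` (level `t ∈ ℤ/L`, place `j`);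
* `Oriented w dir`: `dir` is an orientation of the curves of this diagram (`dir (t, j) = true`: upwards);
* `linking dir t`: number of the strands directed upwards minus number of the strands directed
  downwards at the level `t`, which is the linking number with the axis of the annulus;
* `IsKnot D`: all marked points are on one curve.

`pw n w` (in `Pool.Agent.TH561.PK.Knot`) is the word `w` repeated `n` times; so `annular (pw n w) dir` is
a knot diagram with a rotational symmetry of order `n`.  (By the classical description of tangles as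
partial plat closures of braids, every knot with a cyclic period of order `n` has a diagram of this form.
This fact is not used in the proof.)

`Diagram.IsClosed` and `Diagram.fPoly` (the normalised Kauffman bracket) are in
`Pool.Agent.H891R2.Jones.Diagram`.
-/

set_option autoImplicit false

namespace Pool.Agent.Results.MP_42db45_gt.PeriodicKnots

open Pool.Agent.H891R2.Jones Pool.Agent.TH561.PK

/-- Let `D` be a knot diagram with a rotational symmetry of order `n` and let `λ` be its linking number
with the axis.  Let `p^k`, `k ≥ 1`, be a prime power which divides `n`.  If `f_D` has exactly one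
coefficient which is not divisible by `p`, then `λ ≡ ± 1` modulo `2 p^(k+1)`.  In particular this holds
for every prime power `p^k`, `k ≥ 1`, dividing `n` if `f_D = 1`; hence `f_D ≠ 1` if `n ≥ 2` and
`|λ| < 7`, `λ ≠ ± 1`. -/
theorem result (M l n : ℕ) (w : Fin l → Elem M) (dir : Fin (n * l) × Fin M → Bool)
    (ho : Oriented (pw n w) dir) (hK : IsKnot (annular (pw n w) dir)) :
    (annular (pw n w) dir).IsClosed ∧
    (∀ t t', linking dir t = linking dir t') ∧
    (∀ p k : ℕ, p.Prime → 1 ≤ k → p ^ k ∣ n →
      (∃ a, ¬ (p : ℤ) ∣ (annular (pw n w) dir).fPoly.coeff a ∧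
        ∀ b, b ≠ a → (p : ℤ) ∣ (annular (pw n w) dir).fPoly.coeff b) →
      ∀ t, (2 * p ^ (k + 1) : ℤ) ∣ linking dir t - 1 ∨ (2 * p ^ (k + 1) : ℤ) ∣ linking dir t + 1) ∧
    ((annular (pw n w) dir).fPoly = 1 → ∀ p k : ℕ, p.Prime → 1 ≤ k → p ^ k ∣ n →
      ∀ t, (2 * p ^ (k + 1) : ℤ) ∣ linking dir t - 1 ∨ (2 * p ^ (k + 1) : ℤ) ∣ linking dir t + 1) ∧
    (2 ≤ n → ∀ t, |linking dir t| < 7 → |linking dir t| ≠ 1 → (annular (pw n w) dir).fPoly ≠ 1) := by
  have h1 : (annular (pw n w) dir).fPoly = 1 → ∀ p k : ℕ, p.Prime → 1 ≤ k → p ^ k ∣ n →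
      ∀ t, (2 * p ^ (k + 1) : ℤ) ∣ linking dir t - 1 ∨ (2 * p ^ (k + 1) : ℤ) ∣ linking dir t + 1 := by
    intro hf p k hp hk hn t
    obtain ⟨h2, h3⟩ := one_coeff p hp _ hf
    exact main_n p k n hp hk hn w dir ho hK 0 h2 h3 t
  refine ⟨annular_closed _ dir ho, linking_const _ dir ho, ?_, h1, ?_⟩
  · rintro p k hp hk hn ⟨a, ha, ha'⟩ t
    exact main_n p k n hp hk hn w dir ho hK a ha ha' t
  · intro hn t ht1 ht2 hf
    obtain ⟨p, hp, hpn⟩ := Nat.exists_prime_and_dvd (show n ≠ 1 by omega)
    have h2 := h1 hf p 1 hp le_rfl (by rwa [pow_one]) t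
    have hp2 : (2 : ℤ) ≤ p := by exact_mod_cast hp.two_le
    have hbig : (8 : ℤ) ≤ 2 * p ^ (1 + 1) := by
      have e : (p : ℤ) ^ (1 + 1) = p * p := by ring
      rw [e]
      nlinarith
    generalize (2 * p ^ (1 + 1) : ℤ) = X at h2 hbig
    have hX : ∀ c : ℤ, c ≠ 0 → X * c ≤ -8 ∨ 8 ≤ X * c := by
      intro c hne
      rcases lt_or_gt_of_ne hne with h | h
      · left; nlinarith
      · right; nlinarith
    rw [abs_lt] at ht1
    rcases h2 with ⟨c, hc⟩ | ⟨c, hc⟩
    · have hc0 : c = 0 := by
        by_contra hne
        rcases hX c hne with h | h <;> omega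
      apply ht2
      have : linking dir t = 1 := by rw [hc0, mul_zero] at hc; omega
      rw [this]
      rfl
    · have hc0 : c = 0 := by
        by_contra hne
        rcases hX c hne with h | h <;> omega
      apply ht2
      have : linking dir t = -1 := by rw [hc0, mul_zero] at hc; omega
      rw [this]
      rfl

end Pool.Agent.Results.MP_42db45_gt.PeriodicKnots
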